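import Pool.Agent.Helper80.LP.Plane

/-!
# Rank four data over a plane and a point

Frame: the points of a plane `Q` and one point `o` off it.  Every other point `z` chooses two
points `q`, `q'` such that `z ⊔ q ⊔ q'` has rank three and is not above `o`.
-/

set_option autoImplicit false
set_option linter.unusedSectionVars false

namespace Pool.Agent.Helper86.W

open Pool.Agent.Helper28.BPack Pool.Agent.Helper61.Motz Pool.Agent.Helper63.HM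
open Pool.Agent.Helper80.LP

variable {L : Type} [Lattice L] [BoundedOrder L] [Finite L] [IsUpperModularLattice L]

open Classical in
/-- Weighted pairs over a plane `Q` and a point `o`. -/
theorem crit4_over {A : Finset L} (hA : ∀ a ∈ A, IsAtom a) {Q o : L} (hQ : rk Q = 3)
    (ho : o ∈ A) (hoQ : ¬ o ≤ Q)
    (hQ3 : ∃ a ∈ A, ∃ e ∈ A, ∃ t ∈ A, a ≤ Q ∧ e ≤ Q ∧ t ≤ Q ∧ rk (a ⊔ e ⊔ t) = 3)
    {V0 : Finset (L × L × L)} {w : L × L × L → ℝ} (hw0 : ∀ v, 0 ≤ w v)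
    (hV : ∀ v ∈ V0, v.1 ∈ A ∧ ¬ v.1 ≤ Q ∧ v.1 ≠ o ∧ v.2.1 ∈ A ∧ v.2.2 ∈ A ∧
      rk (v.1 ⊔ v.2.1 ⊔ v.2.2) = 3 ∧ ¬ o ≤ v.1 ⊔ v.2.1 ⊔ v.2.2)
    (hcount : ∀ z ∈ A, ¬ z ≤ Q → z ≠ o → 1 ≤ ∑ v ∈ V0.filter (fun v => v.1 = z), w v)
    (hload : ∀ v ∈ V0, 0 < w v →
      ld V0 w (v.1 ⊔ v.2.1) + ld V0 w (v.1 ⊔ v.2.2) + ld V0 w (v.1 ⊔ v.2.1 ⊔ v.2.2) ≤ 1) :
    Crit4 A := by
  classical
  set Qs := A.filter (· ≤ Q) with hQs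
  have hmQ : ∀ x, x ∈ Qs ↔ x ∈ A ∧ x ≤ Q := fun x => by rw [hQs, Finset.mem_filter]
  have hB4 : Crit4 (insert o Qs) := crit4_base hA hQ ho hoQ (crit3_plane hA hQ3 hQ _ hmQ)
  have hBm : ∀ a, a ∈ insert o Qs → a = o ∨ (a ∈ A ∧ a ≤ Q) := by
    intro a ha
    rcases Finset.mem_insert.mp ha with h | h
    · exact Or.inl h
    · exact Or.inr ((hmQ a).mp h)
  have hne1 : ∀ v ∈ V0, v.1 ≠ v.2.1 ∧ v.1 ≠ v.2.2 := by
    intro v hv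
    obtain ⟨k1, k2, k3, k4, k5, k6, k7⟩ := hV v hv
    obtain ⟨h1, h2, -⟩ := ne_of_rk3 (hA _ k1) (hA _ k4) (hA _ k5) k6
    exact ⟨h1, h2⟩
  have hf2 : ∀ z ∈ A, ¬ z ≤ Q → ∀ q ∈ A, z ≠ q → ¬ o ≤ z ⊔ q → ∀ a ∈ insert o Qs,
      ∀ e ∈ insert o Qs, a ≠ e → a ≤ z ⊔ q → e ≤ z ⊔ q → False := by
    intro z hz hzQ q hq hzq hoq a ha e he hae h1 h2
    rcases hBm a ha with rfl | ⟨ha1, ha2⟩
    · exact hoq h1
    rcases hBm e he with rfl | ⟨he1, he2⟩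
    · exact hoq h2
    have h3 := line_eq (hA a ha1) (hA e he1) hae h1 h2 (rk_line (hA z hz) (hA q hq) hzq)
    exact hzQ ((le_sup_left : z ≤ z ⊔ q).trans (h3 ▸ sup_le ha2 he2))
  refine crit4_of_pairs (B := insert o Qs) (V0 := V0) hA ?_ hB4 hw0 ?_ ?_ ?_ ?_ ?_ hload
  · intro a ha
    rcases hBm a ha with rfl | h
    · exact ho
    · exact h.1
  · intro v hv
    obtain ⟨k1, k2, k3, k4, k5, k6, k7⟩ := hV v hv
    refine ⟨k1, ?_, k4, k5, k6⟩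
    intro h
    rcases hBm _ h with h | h
    · exact k3 h
    · exact k2 h.2
  · intro v hv
    obtain ⟨k1, k2, k3, k4, k5, k6, k7⟩ := hV v hv
    exact hf2 v.1 k1 k2 v.2.1 k4 (hne1 v hv).1 (fun h => k7 (h.trans le_sup_left))
  · intro v hv
    obtain ⟨k1, k2, k3, k4, k5, k6, k7⟩ := hV v hv
    exact hf2 v.1 k1 k2 v.2.2 k5 (hne1 v hv).2 (fun h => k7 (h.trans
      (sup_le (le_sup_left.trans le_sup_left) le_sup_right)))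
  · intro v hv a ha e he t ht h3 h4 h5 h6
    obtain ⟨k1, k2, k3, k4, k5, hr3, k7⟩ := hV v hv
    rcases hBm a ha with rfl | ⟨ha1, ha2⟩
    · exact k7 h4
    rcases hBm e he with rfl | ⟨he1, he2⟩
    · exact k7 h5
    rcases hBm t ht with rfl | ⟨ht1, ht2⟩
    · exact k7 h6
    have h7 : a ⊔ e ⊔ t = v.1 ⊔ v.2.1 ⊔ v.2.2 :=
      eq_of_le_of_rk (sup_le (sup_le h4 h5) h6) (by rw [h3, hr3])
    exact k2 ((le_sup_left.trans le_sup_left : v.1 ≤ v.1 ⊔ v.2.1 ⊔ v.2.2).trans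
      (h7 ▸ sup_le (sup_le ha2 he2) ht2))
  · intro z hz hzB
    rw [Finset.mem_insert, hmQ] at hzB
    push Not at hzB
    exact hcount z hz (hzB.2 hz) hzB.1

open Classical in
/-- Counted pairs over a plane `Q` and a point `o`. -/
theorem crit4_over_count {A : Finset L} (hA : ∀ a ∈ A, IsAtom a) {Q o : L} (hQ : rk Q = 3)
    (ho : o ∈ A) (hoQ : ¬ o ≤ Q)
    (hQ3 : ∃ a ∈ A, ∃ e ∈ A, ∃ t ∈ A, a ≤ Q ∧ e ≤ Q ∧ t ≤ Q ∧ rk (a ⊔ e ⊔ t) = 3)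
    {V0 : Finset (L × L × L)} {M : ℕ} (hM : 0 < M)
    (hV : ∀ v ∈ V0, v.1 ∈ A ∧ ¬ v.1 ≤ Q ∧ v.1 ≠ o ∧ v.2.1 ∈ A ∧ v.2.2 ∈ A ∧
      rk (v.1 ⊔ v.2.1 ⊔ v.2.2) = 3 ∧ ¬ o ≤ v.1 ⊔ v.2.1 ⊔ v.2.2)
    (hcount : ∀ z ∈ A, ¬ z ≤ Q → z ≠ o → M ≤ (V0.filter (fun v => v.1 = z)).card)
    (hload : ∀ v ∈ V0,
      ldn V0 (v.1 ⊔ v.2.1) + ldn V0 (v.1 ⊔ v.2.2) + ldn V0 (v.1 ⊔ v.2.1 ⊔ v.2.2) ≤ M) :
    Crit4 A := by
  classical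
  have hMR : (0 : ℝ) < M := by exact_mod_cast hM
  have hld : ∀ x, ld V0 (fun _ => (M : ℝ)⁻¹) x = (ldn V0 x : ℝ) * (M : ℝ)⁻¹ := by
    intro x
    unfold ld ldn
    rw [Finset.sum_const, nsmul_eq_mul]
  refine crit4_over (V0 := V0) (w := fun _ => (M : ℝ)⁻¹) hA hQ ho hoQ hQ3
    (fun _ => (inv_pos.mpr hMR).le) hV ?_ ?_
  · intro z hz hzQ hzo
    rw [Finset.sum_const, nsmul_eq_mul]
    have h1 : (M : ℝ) ≤ ((V0.filter (fun v => v.1 = z)).card : ℝ) := by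
      exact_mod_cast hcount z hz hzQ hzo
    calc (1 : ℝ) = M * (M : ℝ)⁻¹ := (mul_inv_cancel₀ hMR.ne').symm
      _ ≤ _ := mul_le_mul_of_nonneg_right h1 (inv_pos.mpr hMR).le
  · intro v hv _
    rw [hld, hld, hld, ← add_mul, ← add_mul]
    have h1 : ((ldn V0 (v.1 ⊔ v.2.1) : ℝ) + ldn V0 (v.1 ⊔ v.2.2) +
        ldn V0 (v.1 ⊔ v.2.1 ⊔ v.2.2)) ≤ M := by
      exact_mod_cast hload v hv
    calc _ ≤ (M : ℝ) * (M : ℝ)⁻¹ := mul_le_mul_of_nonneg_right h1 (inv_pos.mpr hMR).le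
      _ = 1 := mul_inv_cancel₀ hMR.ne'

end Pool.Agent.Helper86.W
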